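import Mathlib

set_option autoImplicit false

namespace Pool.Agent.H.MP_d6bcd1_co

/-- bit test -/
def tb (r i : ℕ) : Bool := Nat.beq (Nat.mod (Nat.shiftRight r i) 2) 1

theorem tb_eq (r i : ℕ) : tb r i = r.testBit i := by
  rw [Nat.testBit_eq_decide_div_mod_eq, tb, Bool.eq_iff_iff]
  simp [Nat.shiftRight_eq_div_pow]
  rfl

/-- force evaluation -/
noncomputable def force (n : ℕ) (f : ℕ → Bool) : Bool :=
  Nat.rec (f 0) (fun k _ => f (Nat.succ k)) n

theorem force_eq (n : ℕ) (f : ℕ → Bool) : force n f = f n := by cases n <;> rfl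

/-- choose the lower part of a row -/
noncomputable def cells (next : ℕ → Bool) (fb sm prev : ℕ) (j : ℕ) : ℕ → ℕ → Bool → Bool → Bool :=
  Nat.rec (motive := fun _ => ℕ → ℕ → Bool → Bool → Bool)
    (fun need ρ _ _ => Nat.rec (next ρ) (fun _ _ => true) need)
    (fun j ih need ρ tie lz => Nat.rec (next ρ) (fun n _ =>
      Bool.rec true
        (Bool.rec (ih (Nat.succ n) ρ true true)
          (Bool.rec false
            (Bool.rec (Bool.rec (force (Nat.lor ρ (Nat.pow 2 j)) fun ρ' => ih n ρ' tie false) true
              (Bool.rec false (tb sm j) lz)) true (tb fb j))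
            (ih (Nat.succ n) ρ false true))
          (Bool.rec true (tb prev j) tie))
        (Nat.ble n j)) need) j

theorem cells_zero (next : ℕ → Bool) (fb sm prev j ρ : ℕ) (tie lz : Bool) :
    cells next fb sm prev j 0 ρ tie lz = next ρ := by cases j <;> rfl

theorem cells_succ (next : ℕ → Bool) (fb sm prev j n ρ : ℕ) (tie lz : Bool) (h : n ≤ j)
    (H : cells next fb sm prev (j + 1) (n + 1) ρ tie lz = true) :
    cells next fb sm prev j (n + 1) ρ (tie && !prev.testBit j) true = true ∧
      (fb.testBit j = false → (lz && sm.testBit j) = false → (tie && !prev.testBit j) = false →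
        cells next fb sm prev j n (ρ ||| 2 ^ j) tie false = true) := by
  have h1 : Nat.ble n j = true := Nat.ble_eq_true_of_le h
  have h2 : cells next fb sm prev (j + 1) (n + 1) ρ tie lz =
      Bool.rec true
        (Bool.rec (cells next fb sm prev j (Nat.succ n) ρ true true)
          (Bool.rec false
            (Bool.rec (Bool.rec (force (Nat.lor ρ (Nat.pow 2 j)) fun ρ' => cells next fb sm prev j n ρ' tie false) true
              (Bool.rec false (tb sm j) lz)) true (tb fb j))
            (cells next fb sm prev j (Nat.succ n) ρ false true))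
          (Bool.rec true (tb prev j) tie))
        (Nat.ble n j) := rfl
  rw [h2, h1, force_eq, tb_eq, tb_eq, tb_eq] at H
  change _ ∧ (_ → _ → _ → cells next fb sm prev j n (Nat.lor ρ (Nat.pow 2 j)) tie false = true)
  generalize cells next fb sm prev j n (Nat.lor ρ (Nat.pow 2 j)) tie false = x at *
  generalize prev.testBit j = p at *
  generalize fb.testBit j = f at *
  generalize sm.testBit j = s at *
  cases tie <;> cases p <;> cases f <;> cases s <;> cases lz <;>
    cases hy : cells next fb sm prev j (n + 1) ρ false true <;> simp_all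

/-- scan the earlier rows -/
noncomputable def scan (i : ℕ) (k : ℕ → ℕ → Bool) (L : List ℕ) : ℕ → ℕ → Bool :=
  List.rec (motive := fun _ => ℕ → ℕ → Bool) k
    (fun r _ ih fb need => Bool.rec (ih fb need)
      (Nat.rec true (fun n _ => force (Nat.lor fb r) fun fb' => ih fb' n) need) (tb r i)) L

/-- update of the mask of equal neighbouring columns -/
def upd (sm r i : ℕ) : ℕ :=
  Nat.land sm (Nat.lor (Nat.xor (Nat.xor r (Nat.shiftRight r 1)) 16383) (Nat.pow 2 (Nat.pred i)))

/-- one row -/
noncomputable def step (i : ℕ) (next : List ℕ → ℕ → Bool) (L : List ℕ) (sm : ℕ) : Bool :=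
  scan i (fun fb need => cells (fun r => force (upd sm r i) fun sm' => next (r :: L) sm')
    fb sm (List.rec 0 (fun r _ _ => r) L) i need 0 (tb sm i) false) L 0 5

/-- all remaining rows -/
noncomputable def rows (leaf : List ℕ → ℕ → Bool) (i : ℕ) : List ℕ → ℕ → Bool :=
  Nat.rec leaf (fun i ih => step i ih) i

/-- hypotheses on the graph -/
structure Hyp (a : ℕ → ℕ → Bool) : Prop where
  symm : ∀ i j, a i j = a j i
  irr : ∀ i, a i i = false
  deg : ∀ i, i < 14 → ∑ l ∈ Finset.range 14, (if a i l then 1 else 0) = 5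
  tri : ∀ i j k, a k i = true → a k j = true → a i j = false
  srt : ∀ j i, j + 1 < 14 → i < 14 → i ≠ j → i ≠ j + 1 →
    (∀ k, i < k → k < 14 → k ≠ j → k ≠ j + 1 → a k (j + 1) = a k j) →
    a i (j + 1) = false → a i j = false

/-- the list holds the lower parts of the rows from the given index on -/
inductive Good (a : ℕ → ℕ → Bool) : ℕ → List ℕ → Prop
  | nil : Good a 14 []
  | cons {i r : ℕ} {L : List ℕ} : i < 14 → (∀ l, r.testBit l = (decide (l < i) && a i l)) →
      Good a (i + 1) L → Good a i (r :: L)

/-- invariant of the mask -/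
def SmInv (a : ℕ → ℕ → Bool) (m sm : ℕ) : Prop :=
  ∀ l, l < m → sm.testBit l = true →
    l + 1 < 14 ∧ ∀ k, m ≤ k → k < 14 → k ≠ l + 1 → a k (l + 1) = a k l

theorem cells_sound {a : ℕ → ℕ → Bool} (H : Hyp a) {i : ℕ} (hi : i < 14) (next : ℕ → Bool)
    {fb sm prev : ℕ} (hfb : ∀ l, fb.testBit l = true → a i l = false) (hsm : SmInv a (i + 1) sm)
    (hprev : i + 1 < 14 → ∀ l, l < i → prev.testBit l = a (i + 1) l) :
    ∀ j, j ≤ i → ∀ (ρ : ℕ) (tie lz : Bool),
      (∀ l, ρ.testBit l = (decide (j ≤ l) && decide (l < i) && a i l)) →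
      (tie = true → i + 1 < 14 ∧ ∀ l, j ≤ l → l < 14 → l ≠ i → l ≠ i + 1 → a l (i + 1) = a l i) →
      (lz = true → j < i ∧ a i j = false) →
      cells next fb sm prev j (∑ l ∈ Finset.range j, (if a i l then 1 else 0)) ρ tie lz = true →
      ∃ r, (∀ l, r.testBit l = (decide (l < i) && a i l)) ∧ next r = true := by
  intro j
  induction j with
  | zero =>
    intro _ ρ tie lz h1 _ _ h4
    rw [Finset.sum_range_zero, cells_zero] at h4
    exact ⟨ρ, fun l => by simpa using h1 l, h4⟩
  | succ j ih =>
    intro hj ρ tie lz h1 h2 h3 h4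
    have hle : (∑ l ∈ Finset.range j, (if a i l then 1 else 0)) ≤ j := by
      simpa using Finset.card_le_card (Finset.filter_subset (fun l => a i l = true) (Finset.range j))
    rw [Finset.sum_range_succ] at h4
    cases ha : a i j with
    | true =>
      simp only [ha, if_true] at h4
      have ht : tie = true → prev.testBit j = true := by
        intro ht
        obtain ⟨t1, t2⟩ := h2 ht
        rw [hprev t1 j (by omega), H.symm]
        by_contra hc
        have := H.srt i j t1 (by omega) (by omega) (by omega)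
          (fun k k1 k2 k3 k4 => t2 k (by omega) k2 k3 k4) (by simpa using hc)
        rw [H.symm, ha] at this
        exact absurd this (by simp)
      refine ih (by omega) _ tie false (fun l => ?_) (fun t => ⟨(h2 t).1, fun l l1 l2 l3 l4 => ?_⟩)
        (by simp) ((cells_succ _ _ _ _ _ _ _ _ _ hle h4).2 ?_ ?_ ?_)
      · rw [Nat.testBit_or, h1, Nat.testBit_two_pow]
        rcases eq_or_ne j l with rfl | h
        · simp [ha]; omega
        · simp only [h, decide_false, Bool.or_false]
          congr 2
          exact decide_eq_decide.2 (by omega)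
      · rcases eq_or_ne j l with rfl | h
        · rw [H.symm, ← hprev (h2 t).1 j (by omega), ht t, H.symm, ha]
        · exact (h2 t).2 l (by omega) l2 l3 l4
      · by_contra hc
        rw [hfb j (by simpa using hc)] at ha
        exact absurd ha (by simp)
      · by_contra hc
        simp only [Bool.not_eq_false, Bool.and_eq_true] at hc
        obtain ⟨c1, c2⟩ := h3 hc.1
        obtain ⟨c3, c4⟩ := hsm j (by omega) hc.2
        have := H.srt j i c3 hi (by omega) (by omega)
          (fun k k1 k2 _ k4 => c4 k (by omega) k2 k4) c2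
        rw [ha] at this
        exact absurd this (by simp)
      · cases tie
        · rfl
        · simp [ht rfl]
    | false =>
      simp only [ha, Bool.false_eq_true, if_false, add_zero] at h4
      have hb : ∀ l, ρ.testBit l = (decide (j ≤ l) && decide (l < i) && a i l) := by
        intro l
        rw [h1]
        rcases eq_or_ne j l with rfl | h
        · simp [ha]
        · congr 2
          exact decide_eq_decide.2 (by omega)
      rcases hn : (∑ l ∈ Finset.range j, (if a i l then 1 else 0)) with _ | n
      · rw [hn, cells_zero] at h4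
        exact ih (by omega) ρ false false hb (by simp) (by simp) (by rw [hn, cells_zero, h4])
      · rw [hn] at h4
        refine ih (by omega) ρ (tie && !prev.testBit j) true hb (fun t => ?_)
          (fun _ => ⟨by omega, ha⟩) (by
            rw [hn]; exact (cells_succ _ _ _ _ _ _ _ _ _ (by omega) h4).1)
        simp only [Bool.and_eq_true, Bool.not_eq_eq_eq_not, Bool.not_true] at t
        refine ⟨(h2 t.1).1, fun l l1 l2 l3 l4 => ?_⟩
        rcases eq_or_ne j l with rfl | h
        · rw [H.symm, ← hprev (h2 t.1).1 j (by omega), t.2, H.symm, ha]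
        · exact (h2 t.1).2 l (by omega) l2 l3 l4

theorem scan_sound {a : ℕ → ℕ → Bool} (H : Hyp a) (i : ℕ) (k : ℕ → ℕ → Bool) (n : ℕ)
    {m : ℕ} {L : List ℕ} (hL : Good a m L) : i < m → ∀ fb,
      (∀ l, fb.testBit l = true → a i l = false) →
      scan i k L fb (n + ∑ l ∈ Finset.Ico m 14, (if a i l then 1 else 0)) = true →
      ∃ fb', (∀ l, fb'.testBit l = true → a i l = false) ∧ k fb' n = true := by
  induction hL with
  | nil =>
    intro _ fb h1 h2
    exact ⟨fb, h1, by simp only [Finset.Ico_self, Finset.sum_empty, add_zero] at h2; exact h2⟩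
  | @cons m r L hm hr _ ih =>
    intro him fb h1 h2
    rw [Finset.sum_eq_sum_Ico_succ_bot hm] at h2
    have h3 : tb r i = a i m := by rw [tb_eq, hr, H.symm]; simp [him]
    have h4 : ∀ need, scan i k (r :: L) fb need = Bool.rec (scan i k L fb need)
      (Nat.rec true (fun n _ => force (Nat.lor fb r) fun fb' => scan i k L fb' n) need) (tb r i) :=
      fun _ => rfl
    rw [h4, h3] at h2
    cases ha : a i m with
    | false =>
      simp only [ha, Bool.false_eq_true, if_false, zero_add] at h2
      exact ih (by omega) fb h1 h2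
    | true =>
      simp only [ha, if_true] at h2
      rw [add_comm 1, ← add_assoc] at h2
      simp only [force_eq] at h2
      refine ih (by omega) _ (fun l hl => ?_) h2
      change (fb ||| r).testBit l = true at hl
      rw [Nat.testBit_or, Bool.or_eq_true] at hl
      rcases hl with hl | hl
      · exact h1 l hl
      · rw [hr, Bool.and_eq_true] at hl
        exact H.tri i l m (by rw [H.symm, ha]) hl.2

theorem step_sound {a : ℕ → ℕ → Bool} (H : Hyp a) {i : ℕ} (hi : i < 14)
    (next : List ℕ → ℕ → Bool) {L : List ℕ} {sm : ℕ} (hL : Good a (i + 1) L)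
    (hsm : SmInv a (i + 1) sm) (h : step i next L sm = true) :
    ∃ L' sm', Good a i L' ∧ SmInv a i sm' ∧ next L' sm' = true := by
  have hd : 5 = (∑ l ∈ Finset.range i, (if a i l then 1 else 0)) +
      ∑ l ∈ Finset.Ico (i + 1) 14, (if a i l then 1 else 0) := by
    rw [← H.deg i hi, Finset.range_eq_Ico, ← Finset.sum_Ico_consecutive _ (Nat.zero_le i) hi.le,
      Finset.sum_eq_sum_Ico_succ_bot hi, H.irr]
    simp
  rw [step, hd] at h
  obtain ⟨fb, h1, h2⟩ := scan_sound H i _ _ hL (by omega) 0 (by simp) h
  obtain ⟨r, h3, h4⟩ := cells_sound H hi _ h1 hsm (prev := List.rec 0 (fun r _ _ => r) L)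
    (fun hi' l hl => by
      cases hL with
      | nil => omega
      | cons _ hr _ => rw [hr]; simp; omega) i le_rfl 0 _ false
    (fun l => by simp) (fun t => by
      rw [tb_eq] at t
      obtain ⟨t1, t2⟩ := hsm i (by omega) t
      exact ⟨t1, fun l l1 l2 l3 l4 => t2 l (by omega) l2 l4⟩) (by simp) h2
  rw [force_eq] at h4
  refine ⟨_, _, Good.cons hi h3 hL, fun l hl hb => ?_, h4⟩
  change (sm &&& (((r ^^^ (r >>> 1)) ^^^ 16383) ||| 2 ^ (i - 1))).testBit l = true at hb
  rw [Nat.testBit_and, Bool.and_eq_true, Nat.testBit_or, Nat.testBit_two_pow, Nat.testBit_xor,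
    Nat.testBit_xor, Nat.testBit_shiftRight, show 16383 = 2 ^ 14 - 1 from rfl,
    Nat.testBit_two_pow_sub_one, h3, h3] at hb
  obtain ⟨t1, t2⟩ := hsm l (by omega) hb.1
  refine ⟨t1, fun k k1 k2 k3 => ?_⟩
  rcases eq_or_ne k i with rfl | h
  · have b := hb.2
    have e1 : l < 14 := by omega
    have e2 : l + 1 < k := by omega
    have e3 : ¬ k - 1 = l := by omega
    simp only [hl, e1, e2, e3, decide_true, decide_false, Bool.true_and, Bool.or_false,
      add_comm 1 l] at b
    revert b
    cases a k l <;> cases a k (l + 1) <;> simp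
  · exact t2 k (by omega) k2 k3

theorem rows_sound {a : ℕ → ℕ → Bool} (H : Hyp a) (leaf : List ℕ → ℕ → Bool) :
    ∀ i, i ≤ 14 → ∀ L sm, Good a i L → SmInv a i sm → rows leaf i L sm = true →
      ∃ L' sm', Good a 0 L' ∧ leaf L' sm' = true := by
  intro i
  induction i with
  | zero => exact fun _ L sm h1 _ h3 => ⟨L, sm, h1, h3⟩
  | succ i ih =>
    intro hi L sm h1 h2 h3
    obtain ⟨L', sm', g1, g2, g3⟩ := step_sound H (by omega) _ h1 h2 h3
    exact ih (by omega) L' sm' g1 g2 g3

end Pool.Agent.H.MP_d6bcd1_co
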