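import Mathlib
import Pool.Agent.H.MP_d6bcd1_co.Search

set_option autoImplicit false

namespace Pool.Agent.H.MP_d6bcd1_co

open Matrix

theorem inv_sum {n : Type} [Fintype n] [DecidableEq n] (C B : Matrix n n ℝ) (hC : C.IsHermitian)
    (c : ℝ) (hc : c * Fintype.card n = 1) (h1 : ∀ i, ∑ j, C i j = 0)
    (h2 : ∀ i j, (C * B) i j = (if i = j then 1 else 0) - c) (h3 : ∑ i, ∑ j, B i j = 0) :
    (0 : ℝ) ∉ C.charpoly.roots.erase 0 ∧
      ((C.charpoly.roots.erase 0).map (fun x => x⁻¹)).sum = trace B := by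
  have hs : Cᵀ = C := by simpa using hC.eq
  set u : n → n → ℝ := fun j => ⇑(hC.eigenvectorBasis j) with hu
  set l := hC.eigenvalues with hl
  have e1 : ∀ j, C *ᵥ u j = l j • u j := fun j => hC.mulVec_eigenvectorBasis j
  have hU : (hC.eigenvectorUnitary : Matrix n n ℝ) * star (hC.eigenvectorUnitary : Matrix n n ℝ) = 1 :=
    Unitary.coe_mul_star_self _
  have hU' : star (hC.eigenvectorUnitary : Matrix n n ℝ) * (hC.eigenvectorUnitary : Matrix n n ℝ) = 1 :=
    Unitary.coe_star_mul_self _
  have e2 : ∀ j, u j ⬝ᵥ u j = 1 := fun j => by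
    have := congrFun (congrFun hU' j) j
    simpa [mul_apply, dotProduct, hu] using this
  have e3 : ∀ X : Matrix n n ℝ, trace X = ∑ j, u j ⬝ᵥ X *ᵥ u j := fun X => by
    have : trace X = trace (star (hC.eigenvectorUnitary : Matrix n n ℝ) *
        (X * (hC.eigenvectorUnitary : Matrix n n ℝ))) := by
      rw [trace_mul_comm, mul_assoc, hU, mul_one]
    rw [this]
    simp [trace, mul_apply, dotProduct, mulVec, hu]
  have e4 : ∀ j, u j ᵥ* C = l j • u j := fun j => by
    rw [← e1, ← hs, vecMul_transpose, hs]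
  have e5 : ∀ j, u j ᵥ* (C * B) = fun k => u j k - c * ∑ i, u j i := fun j => by
    funext k
    simp only [vecMul, dotProduct, h2, mul_sub, Finset.sum_sub_distrib, mul_ite, mul_one, mul_zero,
      Finset.sum_ite_eq', Finset.mem_univ, if_true, Finset.sum_mul, mul_comm c]
  have e6 : ∀ j, l j * (u j ⬝ᵥ B *ᵥ u j) = u j ⬝ᵥ (C * B) *ᵥ u j := fun j => by
    rw [← mulVec_mulVec, dotProduct_mulVec (u j) C, e4, smul_dotProduct, smul_eq_mul]
  have e7 : ∀ j, l j * ∑ i, u j i = 0 := fun j => by
    have : ∑ k, (u j ᵥ* C) k = 0 := by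
      simp only [vecMul, dotProduct]
      rw [Finset.sum_comm]
      simp [← Finset.mul_sum, h1]
    rw [e4] at this
    simpa [Finset.mul_sum] using this
  have e8 : ∀ j, u j ⬝ᵥ B *ᵥ u j = (l j)⁻¹ := fun j => by
    by_cases h : l j = 0
    · have a1 := e5 j
      rw [← vecMul_vecMul, e4, h, zero_smul, zero_vecMul] at a1
      obtain ⟨s, hs⟩ : ∃ s, u j = fun _ => s :=
        ⟨c * ∑ i, u j i, funext fun k => by have := congrFun a1 k; simp at this; linarith⟩
      rw [hs, h, _root_.inv_zero]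
      simp only [dotProduct, mulVec, ← Finset.mul_sum, ← Finset.sum_mul, h3, zero_mul, mul_zero]
    · have a1 := e6 j
      rw [dotProduct_mulVec (u j) (C * B), e5, (mul_eq_zero.1 (e7 j)).resolve_left h] at a1
      simp only [mul_zero, sub_zero] at a1
      rw [e2] at a1
      exact eq_inv_of_mul_eq_one_right a1
  have hr : C.charpoly.roots = Finset.univ.val.map l := by
    rw [hC.roots_charpoly_eq_eigenvalues]; rfl
  constructor
  · have a1 : trace (C * B) = Fintype.card n - 1 := by
      simp [trace, h2, mul_comm _ c, hc]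
    rw [e3] at a1
    simp only [← e6, e8] at a1
    have a2 : ∀ j, l j * (l j)⁻¹ = 1 - if 0 = l j then 1 else 0 := fun j => by
      split_ifs with h
      · simp [← h]
      · simp [Ne.symm h]
    simp only [a2, Finset.sum_sub_distrib, Finset.sum_boole, Finset.sum_const, Finset.card_univ,
      nsmul_eq_mul, mul_one, sub_right_inj, Nat.cast_eq_one] at a1
    rw [← Multiset.count_eq_zero, Multiset.count_erase_self, hr, Multiset.count_map]
    exact Nat.sub_eq_zero_of_le a1.le
  · have a1 : ∀ s : Multiset ℝ, ((s.erase 0).map (fun x => x⁻¹)).sum = (s.map (fun x => x⁻¹)).sum := by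
      intro s
      by_cases h : (0 : ℝ) ∈ s
      · conv_rhs => rw [← Multiset.cons_erase h]
        simp
      · rw [Multiset.erase_of_notMem h]
    rw [a1, hr, e3, Multiset.map_map]
    simp only [e8]
    rfl

theorem colex_lt {β : Type} [LinearOrder β] (x y : Fin 14 → β) (i : Fin 14)
    (h1 : ∀ k, i < k → x k = y k) (h2 : x i < y i) : toColex x < toColex y := ⟨i, h1, h2⟩

theorem exists_sorted (b : Fin 14 → Fin 14 → Bool) (hs : ∀ i j, b i j = b j i)
    (hi : ∀ i, b i i = false) : ∃ σ : Equiv.Perm (Fin 14), ∀ j j' i : Fin 14, j'.val = j.val + 1 →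
      i ≠ j → i ≠ j' → (∀ k, i < k → k ≠ j → k ≠ j' → b (σ k) (σ j') = b (σ k) (σ j)) →
      b (σ i) (σ j') = false → b (σ i) (σ j) = false := by
  obtain ⟨σ, hσ⟩ := Finite.exists_max (fun σ : Equiv.Perm (Fin 14) =>
    toColex (fun i => toColex (fun j => b (σ i) (σ j))))
  refine ⟨σ, fun j j' i hj h1 h2 h3 h4 => ?_⟩
  by_contra h5
  rw [Bool.not_eq_false] at h5
  refine absurd (hσ (σ * Equiv.swap j j')) (not_le.2 ?_)
  have hjj : j < j' := by rw [Fin.lt_def]; omega
  have hrow : ∀ k, i < k → k ≠ j → k ≠ j' → toColex (fun c => b (σ k) (σ c)) =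
      toColex (fun c => b ((σ * Equiv.swap j j') k) ((σ * Equiv.swap j j') c)) := by
    intro k k1 k2 k3
    congr 1
    funext c
    simp only [Equiv.Perm.mul_apply, Equiv.swap_apply_of_ne_of_ne k2 k3]
    rcases eq_or_ne c j with rfl | c1
    · rw [Equiv.swap_apply_left, h3 k k1 k2 k3]
    rcases eq_or_ne c j' with rfl | c2
    · rw [Equiv.swap_apply_right, h3 k k1 k2 k3]
    rw [Equiv.swap_apply_of_ne_of_ne c1 c2]
  rcases lt_or_gt_of_ne h1 with h | h
  · refine colex_lt _ _ j' (fun k hk => hrow k (h.trans (hjj.trans hk)) (hjj.trans hk).ne' hk.ne')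
      (colex_lt _ _ i (fun c hc => ?_) ?_)
    · simp only [Equiv.Perm.mul_apply, Equiv.swap_apply_right]
      rcases eq_or_ne c j with rfl | c1
      · rw [Equiv.swap_apply_left, hs]
      rcases eq_or_ne c j' with rfl | c2
      · rw [Equiv.swap_apply_right, hi, hi]
      rw [Equiv.swap_apply_of_ne_of_ne c1 c2, hs, h3 c hc c1 c2, hs]
    · simp only [Equiv.Perm.mul_apply, Equiv.swap_apply_right,
        Equiv.swap_apply_of_ne_of_ne h1 h2]
      rw [hs, h4, hs, h5]
      exact Bool.false_lt_true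
  · have h' : j' < i := by
      have : i.val ≠ j'.val := fun e => h2 (Fin.ext e)
      rw [Fin.lt_def] at h ⊢
      omega
    refine colex_lt _ _ i (fun k hk => hrow k hk (h.trans hk).ne' (h'.trans hk).ne')
      (colex_lt _ _ j' (fun c hc => ?_) ?_)
    · simp only [Equiv.Perm.mul_apply, Equiv.swap_apply_of_ne_of_ne h1 h2,
        Equiv.swap_apply_of_ne_of_ne (hjj.trans hc).ne' (ne_of_gt hc)]
    · simp only [Equiv.Perm.mul_apply, Equiv.swap_apply_right,
        Equiv.swap_apply_of_ne_of_ne h1 h2]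
      rw [h4, h5]
      exact Bool.false_lt_true

theorem good_get {a : ℕ → ℕ → Bool} {m : ℕ} {L : List ℕ} (h : Good a m L) :
    ∀ i, m + i < 14 → ∀ l, (L.getD i 0).testBit l = (decide (l < m + i) && a (m + i) l) := by
  induction h with
  | nil => intro i hi; omega
  | cons hm hr _ ih =>
    intro i hi l
    rcases i with _ | i
    · simpa using hr l
    · have := ih i (by omega) l
      rw [add_assoc, add_comm 1] at this
      simpa using this

end Pool.Agent.H.MP_d6bcd1_co
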