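import Mathlib
import Pool.Agent.H.MP_d6bcd1_co.Facts
import Pool.Agent.H.MP_d6bcd1_co.Spec

set_option autoImplicit false

namespace Pool.Agent.H.MP_d6bcd1_co

open Matrix

theorem runs : ∀ p ∈ grps, rows leaf 10 p.1 p.2 = true := by
  have h : (grps.all fun p => rows leaf 10 p.1 p.2) = true := by
    simp only [grps, List.all_append, run0, run1, run2, run3, run4, run5, run6, run7, run8, run9,
      Bool.and_self]
  exact List.all_eq_true.1 h

theorem search {a : ℕ → ℕ → Bool} (H : Hyp a) : ∃ c ∈ certs, Good a 0 c.1 := by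
  obtain ⟨L1, s1, g1, i1, h1⟩ := step_sound H (by omega) _ Good.nil (sm := 8191) (fun l hl hb => by
    rw [show 8191 = 2 ^ 13 - 1 from rfl, Nat.testBit_two_pow_sub_one, decide_eq_true_eq] at hb
    exact ⟨by omega, fun k k1 k2 => by omega⟩) top
  obtain ⟨L2, s2, g2, i2, h2⟩ := step_sound H (by omega) _ g1 i1 h1
  obtain ⟨L3, s3, g3, i3, h3⟩ := step_sound H (by omega) _ g2 i2 h2
  obtain ⟨L4, s4, g4, i4, h4⟩ := step_sound H (by omega) _ g3 i3 h3
  obtain ⟨L, s, g, h⟩ := rows_sound H leaf 10 (by omega) L4 s4 g4 i4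
    (runs (L4, s4) (List.mem_of_elem_eq_true h4))
  obtain ⟨c, hc, e⟩ := List.any_eq_true.1 h
  exact ⟨c, hc, (beq_iff_eq.1 e) ▸ g⟩

theorem classify (b : Fin 14 → Fin 14 → Bool) (hs : ∀ i j, b i j = b j i) (hi : ∀ i, b i i = false)
    (hd : ∀ i, ∑ j, (if b i j then 1 else 0) = 5)
    (ht : ∀ i j k, b k i = true → b k j = true → b i j = false) :
    ∃ t < 7, ∃ σ : Equiv.Perm (Fin 14), ∀ i j, b i j = gr t (σ i) (σ j) := by
  obtain ⟨σ, hσ⟩ := exists_sorted b hs hi
  let a : ℕ → ℕ → Bool := fun k l =>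
    if h : k < 14 ∧ l < 14 then b (σ ⟨k, h.1⟩) (σ ⟨l, h.2⟩) else false
  have ha : ∀ i j : Fin 14, a i j = b (σ i) (σ j) := fun i j => dif_pos ⟨i.2, j.2⟩
  have H : Hyp a := by
    refine ⟨fun i j => ?_, fun i => ?_, fun i h => ?_, fun i j k => ?_, fun j i h1 h2 h3 h4 h5 h6 => ?_⟩
    · simp only [a, and_comm (a := j < 14)]
      split_ifs
      · exact hs _ _
      · rfl
    · simp only [a]
      split_ifs
      · exact hi _
      · rfl
    · rw [Finset.sum_range, ← hd (σ ⟨i, h⟩), ← Equiv.sum_comp σ (fun j => if b (σ ⟨i, h⟩) j then 1 else 0)]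
      exact Finset.sum_congr rfl fun j _ => by rw [← ha]
    · simp only [a]
      split_ifs <;> first | exact ht _ _ _ | simp
    · have := hσ ⟨j, by omega⟩ ⟨j + 1, h1⟩ ⟨i, h2⟩ rfl (by simpa using h3) (by simpa using h4)
        (fun k k1 k2 k3 => by
          rw [← ha, ← ha]
          exact h5 k k1 k.2 (fun e => k2 (Fin.ext e)) (fun e => k3 (Fin.ext e)))
        (by rw [← ha]; exact h6)
      rw [← ha] at this
      exact this
  obtain ⟨c, hc, g⟩ := search H
  obtain ⟨c1, c2, c3⟩ := certs_ok c hc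
  refine ⟨c.2.1, c1, σ.symm.trans (Equiv.ofBijective _ (Finite.injective_iff_bijective.1 c2)),
    fun i j => ?_⟩
  obtain ⟨i, rfl⟩ := σ.surjective i
  obtain ⟨j, rfl⟩ := σ.surjective j
  simp only [Equiv.trans_apply, Equiv.symm_apply_apply, Equiv.ofBijective_apply]
  rw [← c3, good_get g i (by omega), good_get g j (by omega), zero_add, zero_add, ha, ha, hs (σ j)]
  rcases lt_trichotomy i j with h | rfl | h
  · have h' : ¬ j.val < i.val := by rw [Fin.lt_def] at h; omega
    simp [h, h']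
  · simp [hi]
  · have h' : ¬ i.val < j.val := by rw [Fin.lt_def] at h; omega
    simp [h, h']

/-- concurrence matrix without its diagonal -/
def adj (M : Matrix (Fin 14) (Fin 35) ℕ) : Matrix (Fin 14) (Fin 14) ℤ :=
  M.map (fun x : ℕ => (x : ℤ)) * (M.map (fun x : ℕ => (x : ℤ))).transpose
    - ((5 : ℕ) : ℤ) • (1 : Matrix (Fin 14) (Fin 14) ℤ)

theorem adj_apply (M : Matrix (Fin 14) (Fin 35) ℕ) (i j : Fin 14) :
    adj M i j = ((M * Mᵀ) i j : ℕ) - if i = j then 5 else 0 := by
  simp only [adj, Matrix.sub_apply, mul_apply, map_apply, transpose_apply, Matrix.smul_apply,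
    one_apply, smul_eq_mul, Nat.cast_sum, Nat.cast_mul, mul_ite, mul_one, mul_zero, Nat.cast_ofNat]

theorem adj_Mm (t : ℕ) (ht : t < 2) : adj (Mm t) = Am t := by
  ext i j
  rw [adj_apply, (mm_ok t ht).2.2.2, Am, of_apply]
  push_cast
  exact add_sub_cancel_right _ _

/-- information matrix -/
noncomputable def inf (A : Matrix (Fin 14) (Fin 14) ℤ) : Matrix (Fin 14) (Fin 14) ℝ :=
  (1 / 2 : ℝ) • ((5 : ℤ) • (1 : Matrix (Fin 14) (Fin 14) ℤ) - A).map (fun x : ℤ => (x : ℝ))

theorem inf_apply (A : Matrix (Fin 14) (Fin 14) ℤ) (i j : Fin 14) :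
    inf A i j = 1 / 2 * ((if i = j then 5 else 0) - A i j) := by
  simp only [inf, Matrix.sub_apply, Matrix.smul_apply, map_apply, one_apply, smul_eq_mul]
  split_ifs <;> simp

theorem inf_adj (M : Matrix (Fin 14) (Fin 35) ℕ) :
    ((5 : ℕ) : ℝ) • (1 : Matrix (Fin 14) (Fin 14) ℝ) - (1 / ((2 : ℕ) : ℝ)) •
      (M.map (fun x : ℕ => (x : ℝ)) * (M.map (fun x : ℕ => (x : ℝ))).transpose) = inf (adj M) := by
  ext i j
  simp only [inf, adj_apply, Matrix.sub_apply, Matrix.smul_apply, map_apply, mul_apply, transpose_apply,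
    one_apply, smul_eq_mul]
  split_ifs <;> push_cast <;> ring

theorem val (t : ℕ) (ht : t < 2) (d T : ℤ) (hd : d ≠ 0)
    (h : (∀ i j, ((14 : ℤ) • (((5 : ℤ) • (1 : Matrix (Fin 14) (Fin 14) ℤ) - Am t) * Bm t)) i j =
      d * (14 * (if i = j then 1 else 0) - 1)) ∧ ∑ i, ∑ j, Bm t i j = 0 ∧ trace (Bm t) = T) :
    (0 : ℝ) ∉ (inf (Am t)).charpoly.roots.erase 0 ∧
      (((inf (Am t)).charpoly.roots.erase 0).map (fun x => x⁻¹)).sum = 2 * T / d := by
  have hd' : (d : ℝ) ≠ 0 := by exact_mod_cast hd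
  obtain ⟨s1, s2⟩ := am_ok t ht
  generalize Am t = A at *
  generalize Bm t = B at *
  have := inv_sum (inf A) ((2 / d : ℝ) • B.map (fun x : ℤ => (x : ℝ))) (by
    ext i j
    simp [inf_apply, s1 i j, eq_comm]) (1 / 14) (by simp) (fun i => by
    have := congrArg (fun x : ℤ => (x : ℝ)) (s2 i)
    push_cast at this
    simp [inf_apply, ← Finset.mul_sum, this]) (fun i j => by
    have := congrArg (fun x : ℤ => (x : ℝ)) (h.1 i j)
    simp only [Matrix.smul_apply, mul_apply, smul_eq_mul] at this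
    push_cast at this
    rw [inf, Matrix.smul_mul, Matrix.mul_smul]
    simp only [Matrix.smul_apply, mul_apply, map_apply, smul_eq_mul]
    field_simp
    linarith) (by
    have := congrArg (fun x : ℤ => (x : ℝ)) h.2.1
    push_cast at this
    simp [← Finset.mul_sum, this])
  refine ⟨this.1, this.2.trans ?_⟩
  rw [← h.2.2]
  simp [trace, ← Finset.mul_sum]
  ring

theorem trace_pow_sub (A : Matrix (Fin 14) (Fin 14) ℤ) (σ : Equiv.Perm (Fin 14)) (h : ℕ) :
    trace (A.submatrix σ σ ^ h) = trace (A ^ h) := by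
  have : A.submatrix σ σ ^ h = (A ^ h).submatrix σ σ := by
    induction h with
    | zero => simp
    | succ h ih => rw [pow_succ, ih, submatrix_mul_equiv, pow_succ]
  rw [this]
  exact Equiv.sum_comp σ (fun i => (A ^ h) i i)

theorem pows (t : ℕ) (ht : t < 7) : Am t ^ 2 = A2 t ∧ Am t ^ 4 = A2 t * A2 t ∧
    (t < 2 → Am t ^ 3 = A3 t ∧ Am t ^ 5 = A2 t * A3 t) := by
  have h2 : Am t ^ 2 = A2 t := by rw [pow_two]; ext i j; exact sq_ok t ht i j
  refine ⟨h2, by rw [← h2, ← pow_add], fun h => ?_⟩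
  have h3 : Am t ^ 3 = A3 t := by rw [pow_succ, h2]; ext i j; exact cb_ok t h i j
  exact ⟨h3, by rw [← h2, ← h3, ← pow_add]⟩

theorem key (M : Matrix (Fin 14) (Fin 35) ℕ) (h1 : ∀ j, ∑ i, M i j = 2) (h2 : ∀ i, ∑ j, M i j = 5)
    (h3 : ∀ i j, M i j ≤ 1) (H : ∀ t, 2 ≤ t →
      (∀ h, 2 ≤ h → h < t → trace (Am 0 ^ h) = trace (adj M ^ h)) →
      trace (adj M ^ t) ≤ trace (Am 0 ^ t)) : (inf (adj M)).charpoly = (inf (Am 0)).charpoly := by
  have a0 : ∀ i, adj M i i = 0 := fun i => by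
    have : (M * Mᵀ) i i = 5 := by
      rw [← h2 i, mul_apply]
      refine Finset.sum_congr rfl fun j _ => ?_
      have := h3 i j
      rw [transpose_apply]
      interval_cases M i j <;> rfl
    rw [adj_apply, this, if_pos rfl]
    rfl
  have a1 : ∀ i j, 0 ≤ adj M i j := fun i j => by
    rcases eq_or_ne i j with rfl | h
    · rw [a0]
    · rw [adj_apply, if_neg h, sub_zero]
      exact Nat.cast_nonneg _
  have a2 : ∀ i j, adj M i j = adj M j i := fun i j => by
    simp only [adj_apply, mul_apply, transpose_apply, mul_comm, eq_comm]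
  have a3 : ∀ i, ∑ j, adj M i j = 5 := fun i => by
    have : ∑ j, (M * Mᵀ) i j = 5 * 2 := by
      simp only [mul_apply, transpose_apply]
      rw [Finset.sum_comm]
      simp only [← Finset.mul_sum, h1, ← Finset.sum_mul, h2]
    simp only [adj_apply, Finset.sum_sub_distrib, ← Nat.cast_sum, this]
    simp
  generalize adj M = A at *
  obtain ⟨p2, p4, p35⟩ := pows 0 (by omega)
  obtain ⟨p3, p5⟩ := p35 (by omega)
  have t2 : trace (Am 0 ^ 2) = 70 := by rw [p2, tr5.2.2.1]
  have t3 : trace (Am 0 ^ 3) = 0 := by rw [p3, tr5.2.2.2]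
  have t4 : trace (Am 0 ^ 4) = 1190 := by
    rw [p4]
    decide +kernel
  have t5 : trace (Am 0 ^ 5) = 960 := by rw [p5, tr5.1]
  have b1 : trace (A ^ 2) - 70 = ∑ i, ∑ j, A i j * (A i j - 1) := by
    simp only [mul_sub, Finset.sum_sub_distrib, mul_one, a3, pow_two, trace, diag, mul_apply]
    simp [a2]
  have b2 : ∀ i j, 0 ≤ A i j * (A i j - 1) := fun i j => by
    have := a1 i j
    rcases this.eq_or_lt with h | h
    · rw [← h, zero_mul]
    · exact mul_nonneg this (by omega)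
  have b3 : ∑ i, ∑ j, A i j * (A i j - 1) = 0 := by
    apply le_antisymm _ (Finset.sum_nonneg fun i _ => Finset.sum_nonneg fun j _ => b2 i j)
    have := H 2 le_rfl (fun h _ _ => by omega)
    omega
  have b4 : ∀ i j, A i j = if decide (A i j = 1) then 1 else 0 := fun i j => by
    have := (Finset.sum_eq_zero_iff_of_nonneg fun j _ => b2 i j).1
      ((Finset.sum_eq_zero_iff_of_nonneg fun i _ => Finset.sum_nonneg fun j _ => b2 i j).1 b3 i
        (Finset.mem_univ _)) j (Finset.mem_univ _)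
    rcases mul_eq_zero.1 this with h | h
    · simp [h]
    · simp [sub_eq_zero.1 h]
  have e2 : trace (Am 0 ^ 2) = trace (A ^ 2) := by omega
  have c1 : trace (A ^ 3) = ∑ i, ∑ k, ∑ j, A i j * A j k * A k i := by
    simp only [pow_succ, pow_zero, one_mul, trace, diag, mul_apply, Finset.sum_mul]
  have c2 : ∀ i k j, 0 ≤ A i j * A j k * A k i := fun i k j =>
    mul_nonneg (mul_nonneg (a1 _ _) (a1 _ _)) (a1 _ _)
  have c3 : trace (A ^ 3) = 0 := by
    apply le_antisymm _ (c1 ▸ Finset.sum_nonneg fun i _ => Finset.sum_nonneg fun k _ =>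
      Finset.sum_nonneg fun j _ => c2 i k j)
    exact t3 ▸ H 3 (by omega) fun h _ _ => by
      obtain rfl : h = 2 := by omega
      exact e2
  have c4 : ∀ i k j, A i j * A j k * A k i = 0 := fun i k j =>
    (Finset.sum_eq_zero_iff_of_nonneg fun j _ => c2 i k j).1
      ((Finset.sum_eq_zero_iff_of_nonneg fun k _ => Finset.sum_nonneg fun j _ => c2 i k j).1
      ((Finset.sum_eq_zero_iff_of_nonneg fun i _ => Finset.sum_nonneg fun k _ =>
        Finset.sum_nonneg fun j _ => c2 i k j).1 (c1 ▸ c3) i (Finset.mem_univ _)) k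
        (Finset.mem_univ _)) j (Finset.mem_univ _)
  obtain ⟨t, ht, σ, hσ⟩ := classify (fun i j => decide (A i j = 1)) (fun i j => by rw [a2])
    (fun i => by simp [a0]) (fun i => by
      have := a3 i
      rw [Finset.sum_congr rfl fun j _ => b4 i j] at this
      exact_mod_cast this) (fun i j k h1 h2 => by
      have := c4 i k j
      simp only [decide_eq_true_eq] at h1 h2
      rw [h1, a2 j k, h2] at this
      simp only [mul_one] at this
      simp [this])
  obtain rfl : A = (Am t).submatrix σ σ := by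
    ext i j
    rw [b4, hσ]
    rfl
  simp only [trace_pow_sub] at H e2 c3
  obtain ⟨q2, q4, q35⟩ := pows t ht
  have d4 := H 4 (by omega) fun h _ _ => by
    rcases (by omega : h = 2 ∨ h = 3) with rfl | rfl
    · exact e2
    · rw [t3, c3]
  rw [t4, q4] at d4
  obtain ⟨d5, d6⟩ := (tr4 t ht).resolve_right (by omega)
  have d7 := H 5 (by omega) fun h _ _ => by
    rcases (by omega : h = 2 ∨ h = 3 ∨ h = 4) with rfl | rfl | rfl
    · exact e2
    · rw [t3, c3]
    · rw [t4, q4, d6]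
  rw [t5, (q35 d5).2] at d7
  obtain rfl : t = 0 := by
    by_contra h
    obtain rfl : t = 1 := by omega
    rw [tr5.2.1] at d7
    omega
  rw [← charpoly_reindex σ.symm (inf (Am 0))]
  congr 1
  ext i j
  simp [inf_apply]

theorem conn0 : (SimpleGraph.fromRel
    (fun i j : Fin 14 => 0 < (Mm 0 * (Mm 0).transpose) i j)).Connected := by
  have h : ∀ i j, gr 0 i j = true → (SimpleGraph.fromRel
      (fun i j : Fin 14 => 0 < (Mm 0 * (Mm 0).transpose) i j)).Reachable i j := by
    intro i j h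
    refine SimpleGraph.Adj.reachable ((SimpleGraph.fromRel_adj _ _ _).2 ⟨?_, Or.inl ?_⟩)
    · rintro rfl
      rw [irr0] at h
      exact absurd h (by simp)
    · rw [(mm_ok 0 (by omega)).2.2.2, h]
      simp
  rw [SimpleGraph.connected_iff_exists_forall_reachable]
  refine ⟨13, fun v => ?_⟩
  rcases near v with rfl | h1 | ⟨w, h1, h2⟩
  · rfl
  · exact h _ _ h1
  · exact (h _ _ h1).trans (h _ _ h2)

theorem exists_lex {α : Type} (s : Set α) (hs : s.Finite) (hn : s.Nonempty) (Γ : α → ℕ → ℤ) :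
    ∃ D ∈ s, ∀ D' ∈ s, ∀ t, 2 ≤ t → (∀ h, 2 ≤ h → h < t → Γ D' h = Γ D h) → Γ D t ≤ Γ D' t := by
  obtain ⟨D, hD, h⟩ := Set.exists_min_image s (fun D => toLex fun h : ℕ => Γ D (h + 2)) hs hn
  refine ⟨D, hD, fun D' hD' t ht he => ?_⟩
  by_contra hc
  obtain ⟨t, rfl⟩ : ∃ u, t = u + 2 := ⟨t - 2, by omega⟩
  exact absurd (h D' hD') (not_le.2 ⟨t, fun j hj => he (j + 2) (by omega) (by
    have : j < t := hj
    omega), not_le.1 hc⟩)

end Pool.Agent.H.MP_d6bcd1_co
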