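import Mathlib
import Pool.Agent.H.MP_d6bcd1_co.Data

set_option autoImplicit false

namespace Pool.Agent.H.MP_d6bcd1_co

theorem run3 : (grp3.all fun p => rows leaf 10 p.1 p.2) = true := by
  decide +kernel

theorem run4 : (grp4.all fun p => rows leaf 10 p.1 p.2) = true := by
  decide +kernel

theorem run5 : (grp5.all fun p => rows leaf 10 p.1 p.2) = true := by
  decide +kernel


end Pool.Agent.H.MP_d6bcd1_co
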